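import Pool.Agent.Q315.FM.Crit

/-!
# Tame representations over local rings: row-connected sets of primes, and large sets of primes

Let `p` be a prime, `p ^ m > 2`. All representations are continuous representations `ρ` of the absolute Galois group of `ℚ` in
`GL_n(A)`, unramified outside a finite set `S` of primes different from `p` and not congruent to `1` modulo `p ^ (m + 1)`, and trivial
modulo `p ^ m` on the inertia groups at the primes in `S`; `A` is any Noetherian local ring of residue characteristic `p`
(`TameFM p m n T`: all such `ρ` have finite image, and are trivial if `p` is not a zero divisor in `A`, whenever the members of `S`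
congruent to `1` modulo `p ^ m` belong to `T`; `TameInf`: for discrete valuation rings `A` of characteristic `0` the set `S` may be
infinite).

1. A new criterion in dimension `n < p`: it is enough that every finite set `J` of at least three members `l` of `T`, with
   `p ^ m ∣ l - 1`, has one of the properties `SparseRow`, `ClosedSub`, `GoodTriple` of the starting files, or is ROW-CONNECTED: call
   `x, y ∈ J` neighbours if their (shifted) rows of linking numbers, normalised by the levels of `x` and `y`, agree outside the places `x`
   and `y`; any two members of `J` are joined by a chain of neighbours.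
2. Every set of at least `p ^ (3 p ^ 3 (k + 1))` primes `l` with `p ^ m ∣ l - 1`, `p ^ (m + 1) ∤ l - 1` contains a set `P` of `k` primes
   with `TameFM p m n P` and `TameInf p m n P`, for all `n` if `p = 2` and for all `n < p` if `p` is odd.

Proof of 1. The images of generators of tame inertia give nilpotent matrices `T_l` over a field of characteristic `p` with
`[N_l, T_l] = T_l`, `N_l = ∑ j, μ l j T_j`. If `x`, `y` are neighbours then `N_x + a T_x = N_y + b T_y` for some `a`, `b`. Since `n < p`,
`N_x + a T_x` is conjugate to `N_x` by the truncated exponential of a multiple of `T_x`. So all `N_l` have the same eigenvalues; if `μ` is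
one of them such that `μ + 1` is none (it exists as `n < p`), then an eigenvector of one `N_l` for `μ` is an eigenvector of all of them
and is annihilated by all `T_l`. Induction on the dimension shows that the `T_l` vanish (`Pool.Agent.Q315.FM.chain_zero`).
-/

set_option autoImplicit false

namespace Pool.Agent.Results.MP_924d78_nt.ChainPatterns

open Pool.Agent.Q315.FM

theorem result (p : ℕ) [Fact p.Prime] (m : ℕ) (hm : 2 < p ^ m) :
    (∀ n : ℕ, n < p → ∀ χ : ∀ j : ℕ, (ZMod j)ˣ →* Multiplicative (ZMod p),
      (∀ l : ℕ, l.Prime → p ∣ l - 1 → ∃ x, χ l x ≠ 1) → ∀ T : Set ℕ,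
      (∀ J : Finset ℕ, (∀ l ∈ J, l ∈ T ∧ l.Prime ∧ p ^ m ∣ l - 1 ∧ ¬ p ^ (m + 1) ∣ l - 1) → 3 ≤ J.card →
        (∃ w t : ℕ → ZMod p, Symm χ J w ∧ (SparseRow m χ w t J ∨ ClosedSub m χ w t J ∨ RowConnected m χ w t J)) ∨
          GoodTriple m χ J) →
      TameFM p m n T ∧ TameInf p m n T) ∧
    ∀ (k : ℕ) (Q : Finset ℕ), (∀ l ∈ Q, l.Prime ∧ p ^ m ∣ l - 1 ∧ ¬ p ^ (m + 1) ∣ l - 1) →
      p ^ (3 * p ^ 3 * (k + 1)) ≤ Q.card →
      ∃ P : Finset ℕ, P ⊆ Q ∧ P.card = k ∧
        ∀ n : ℕ, p = 2 ∨ n < p → TameFM p m n (P : Set ℕ) ∧ TameInf p m n (P : Set ℕ) :=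
  ⟨fun n hn χ hχ T h => criterion m n hm hn χ hχ T h, fun k Q hQ hc => ramsey_finite p m hm k Q hQ hc⟩

end Pool.Agent.Results.MP_924d78_nt.ChainPatterns
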