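import Pool.Agent.Q202.QT.TNest
import Pool.Agent.Q202.QT.DensN
import Pool.Agent.Q202.QT.Ker
import Pool.Agent.Results.MP_924d78_nt.NoetherianCoefficients

/-!
# Two-dimensional tame representations over regular local rings: most tuples of primes

Let `n` be a natural number and `0 < δ ≤ 1`, and let `p` be an odd prime with `4 ≤ δ p` and `2 n ^ 3 6 ^ n < δ ^ n p ^ 2`. For all
primes `q₁ ≡ 1 mod p` but a proportion of at most `δ`, for all primes `q₂ ≡ 1 mod p` but a proportion of at most `δ` (which may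
depend on `q₁`), …, for all primes `q_n ≡ 1 mod p` but a proportion of at most `δ` the following holds: let `A` be a regular local
ring with residue field of order `p`, for example `ℤ_p[[x_1, …, x_m]]` or `𝔽_p[[x_1, …, x_m]]`, and let
`ρ : Gal(ℚbar/ℚ) → GL_2(A)` be continuous, residually unipotent, unramified at `p`, and ramified at no prime congruent to `1`
modulo `p` other than `q₁`, …, `q_n`. If `p = 0` in `A` then `ρ` has finite image; if `p ≠ 0` in `A` and the inertia groups at the
`q_i` act unipotently, or `GL_2(A)` has no elements of order `p`, then `ρ` is trivial.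

Proof. The criterion of the starting library (`Pool.Agent.Results.MP_924d78_nt.NoetherianCoefficients.result`) asks that systems of
equations for nilpotent `2 × 2` matrices `T_1`, …, `T_n` over the residue field have no solution without common kernel. After
conjugation such a solution has three of the `T_i` with kernels spanned by `(1, 0)`, `(0, 1)`, `(1, 1)`, or all `T_i` are strictly
upper or lower triangular. The linking numbers of a tuple of primes which admit a given solution are the solutions of many linear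
equations, and a sum over all solutions bounds the number of exceptional systems of linking numbers. The linking numbers of a new
prime with the preceding primes are jointly equidistributed up to scaling (`Pool.Agent.Q202.QT.densN`), and the theorem follows by
counting the exceptional completions of a system.
-/

set_option autoImplicit false

open NumberField Matrix IsLocalRing

namespace Pool.Agent.Results.MP_924d78_nt.MostTuples

open Finset Filter
open Pool.Agent.Results.MP_924d78_nt.NoetherianCoefficients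
open Pool.Agent.Q202.RT Pool.Agent.Q202.QT
open Pool.Agent.W569.TG (lk)

/-- The two-dimensional tame representations over regular local rings with residue field of order `p` whose ramification at primes
congruent to `1` modulo `p` is in `T` are finite or trivial: for all finite sets `S` of primes different from `p` whose members
congruent to `1` modulo `p` are in `T`, all regular local rings `A` with residue field of order `p`, every continuous residually
unipotent `ρ : Gal(ℚbar/ℚ) → GL_2(A)` unramified outside `S` has finite image if `p = 0` in `A`, and is trivial if `p ≠ 0` in `A` and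
the inertia groups at the primes in `S` congruent to `1` modulo `p` act unipotently or `GL_2(A)` has no elements of order `p`. -/
def RegularTrivial (p : ℕ) (T : Set ℕ) : Prop :=
  ∀ S : Finset ℕ, (∀ l ∈ S, l.Prime ∧ l ≠ p) → (∀ l ∈ S, p ∣ l - 1 → l ∈ T) →
    ∀ (A : Type) [CommRing A] [IsLocalRing A] [IsNoetherianRing A] [TopologicalSpace A],
      IsRegularLocalRing A → IsAdic (maximalIdeal A) → Nat.card (ResidueField A) = p →
    ∀ ρ : Gal(AlgebraicClosure ℚ/ℚ) →* GL (Fin 2) A, Continuous ρ → UnramifiedOutside S ρ → ResiduallyUnipotent ρ →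
      ((p : A) = 0 → (Set.range ρ).Finite) ∧
      ((p : A) ≠ 0 → UnipotentInertia p S ρ ∨ (∀ M : Matrix (Fin 2) (Fin 2) A, M ^ p = 1 → M = 1) → ∀ g, ρ g = 1)

open Classical in
/-- The primes `q ≤ x` with `p ∣ q - 1`. -/
noncomputable def Pr (p x : ℕ) : Finset ℕ := (range (x + 1)).filter fun q => q.Prime ∧ p ∣ q - 1

open Classical in
/-- `Most p δ R n T`: for all primes `q₁ ≡ 1 mod p`, `q₁ ∉ T`, but a proportion of at most `δ`, for all primes `q₂ ≡ 1 mod p`,
`q₂ ∉ T ∪ {q₁}`, but a proportion of at most `δ`, …, for all primes `q_n ≡ 1 mod p`, `q_n ∉ T ∪ {q₁, …, q_{n-1}}`, but a proportion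
of at most `δ`, the set `T ∪ {q₁, …, q_n}` has the property `R`. -/
def Most (p : ℕ) (δ : ℝ) (R : Set ℕ → Prop) : ℕ → Set ℕ → Prop
  | 0, T => R T
  | n + 1, T => ∀ ε : ℝ, 0 < ε → ∀ᶠ x : ℕ in atTop, (1 - δ - ε) * ((Pr p x).card : ℝ) ≤
      (((Pr p x).filter fun q => q ∉ T ∧ Most p δ R n (insert q T)).card : ℝ)

theorem Pr_eq (p x : ℕ) [Fact p.Prime] : Pr p x = P1 p x := by
  ext l
  rw [mem_P1, Pr, mem_filter, mem_range]
  constructor
  · rintro ⟨h1, h2, h3⟩
    exact ⟨by omega, h2, h3⟩
  · rintro ⟨h1, h2, h3⟩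
    exact ⟨by omega, h2, h3⟩

section
variable {n : ℕ} {K : Type} [Field K]

open Classical in
theorem sum_sub {S1 : Finset ℕ} {l : Fin n → ℕ} (hl : Function.Injective l) (h : S1 ⊆ univ.image l) {M : Type} [AddCommMonoid M]
    (g : ℕ → M) : ∑ j ∈ S1, g j = ∑ i, if l i ∈ S1 then g (l i) else 0 := by
  rw [← sum_image (f := fun j => if j ∈ S1 then g j else 0) (g := l) (fun i _ j _ hij => hl hij), sum_ite_mem,
    inter_eq_right.2 h]

theorem tuple_of {S1 : Finset ℕ} {l : Fin n → ℕ} (hl : Function.Injective l) (h : S1 ⊆ univ.image l) {u : ℕ → K}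
    {L : ℕ → ℕ → K} {ε : K} (hN : NTt (fun i => u (l i)) (fun i j => L (l i) (l j)) ε) (T : ℕ → Matrix (Fin 2) (Fin 2) K)
    (hsq : ∀ a ∈ S1, T a * T a = 0)
    (hrel : ∀ a ∈ S1, (∑ j ∈ S1, L a j • T j) * T a - T a * (∑ j ∈ S1, L a j • T j) = (ε * u a) • T a) :
    ∃ w : Fin 2 → K, w ≠ 0 ∧ ∀ a ∈ S1, T a *ᵥ w = 0 := by
  classical
  set T' : Fin n → Matrix (Fin 2) (Fin 2) K := fun i => if l i ∈ S1 then T (l i) else 0 with hT'
  have hsum : ∀ a, ∑ i, L a (l i) • T' i = ∑ j ∈ S1, L a j • T j := by
    intro a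
    rw [sum_sub hl h]
    refine sum_congr rfl fun i _ => ?_
    rw [hT']
    dsimp only
    split_ifs
    · rfl
    · rw [smul_zero]
  obtain ⟨w, hw0, hw⟩ := hN T' (fun i => by
      by_cases hi : l i ∈ S1
      · rw [hT']
        simp only [if_pos hi]
        exact hsq _ hi
      · rw [hT']
        simp only [if_neg hi, mul_zero]) (fun i => by
      unfold Pool.Agent.Q202.QT.Rel
      rw [smul_zero, zero_add, hsum]
      by_cases hi : l i ∈ S1
      · have e : T' i = T (l i) := if_pos hi
        rw [e]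
        exact hrel _ hi
      · have e : T' i = 0 := if_neg hi
        rw [e, mul_zero, zero_mul, smul_zero, sub_zero])
  refine ⟨w, hw0, fun a ha => ?_⟩
  obtain ⟨i, -, rfl⟩ := mem_image.1 (h ha)
  have := hw i
  rw [show T' i = T (l i) from if_pos ha] at this
  exact this

theorem pair_of {S1 : Finset ℕ} {l : Fin n → ℕ} (hl : Function.Injective l) (h : S1 ⊆ univ.image l)
    {L : ℕ → ℕ → K} (hN : NPt (fun i j => L (l i) (l j))) (x y : ℕ → K) (hxy : ∀ a ∈ S1, x a * y a = 0)
    (h1 : ∀ a ∈ S1, x a * ∑ j ∈ S1, L a j * y j = 0) (h2 : ∀ a ∈ S1, y a * ∑ j ∈ S1, L a j * x j = 0) :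
    (∀ a ∈ S1, x a = 0) ∨ (∀ a ∈ S1, y a = 0) := by
  classical
  set e : (ℕ → K) → Fin n → K := fun z i => if l i ∈ S1 then z (l i) else 0 with he
  have hsum : ∀ (z : ℕ → K) a, ∑ i, L a (l i) * e z i = ∑ j ∈ S1, L a j * z j := by
    intro z a
    rw [sum_sub hl h]
    refine sum_congr rfl fun i _ => ?_
    rw [he]
    dsimp only
    split_ifs
    · rfl
    · rw [mul_zero]
  have hin : ∀ (z : ℕ → K) i, l i ∈ S1 → e z i = z (l i) := fun z i hi => if_pos hi
  have hout : ∀ (z : ℕ → K) i, l i ∉ S1 → e z i = 0 := fun z i hi => if_neg hi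
  rcases hN (e x) (e y) (fun i => by
      by_cases hi : l i ∈ S1
      · rw [hin x i hi, hin y i hi]
        exact hxy _ hi
      · rw [hout x i hi, zero_mul]) (fun i => by
      rw [hsum]
      by_cases hi : l i ∈ S1
      · rw [hin x i hi]
        exact h1 _ hi
      · rw [hout x i hi, zero_mul]) (fun i => by
      rw [hsum]
      by_cases hi : l i ∈ S1
      · rw [hin y i hi]
        exact h2 _ hi
      · rw [hout y i hi, zero_mul]) with hx | hx
  · left
    intro a ha
    obtain ⟨i, -, rfl⟩ := mem_image.1 (h ha)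
    have := hx i
    rwa [hin x i ha] at this
  · right
    intro a ha
    obtain ⟨i, -, rfl⟩ := mem_image.1 (h ha)
    have := hx i
    rwa [hin y i ha] at this

end

section
variable {p : ℕ} [Fact p.Prime]

theorem linking_lk {K : Type} [Field K] [CharP K p] (χ : ∀ j : ℕ, (ZMod j)ˣ →* Multiplicative (ZMod p)) (j q : ℕ) :
    linking K j q (χ j) = ZMod.castHom (dvd_refl p) K (lk χ q j) := by
  have : NeZero p := ⟨(Fact.out : p.Prime).ne_zero⟩
  unfold linking lk
  split_ifs with h
  · rw [ZMod.castHom_apply, ZMod.natCast_val]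
  · rw [map_zero]

/-- the linking numbers -/
noncomputable def dat (χ : ∀ j : ℕ, (ZMod j)ˣ →* Multiplicative (ZMod p)) {n : ℕ} (l : Fin n → ℕ) : Dat p n :=
  (fun i => (lv p (l i), fun j => lk χ (l i) (l j)), fun j => lk χ p (l j))

theorem card_char {K : Type} [Field K] (hK : Nat.card K = p) : CharP K p := by
  have hp : p.Prime := Fact.out
  have hfin : Finite K := Nat.finite_of_card_ne_zero (by rw [hK]; exact hp.ne_zero)
  have : Fintype K := Fintype.ofFinite _
  have h0 : (p : K) = 0 := by
    rw [← hK, Nat.card_eq_fintype_card]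
    exact Nat.cast_card_eq_zero K
  obtain ⟨q, hq⟩ := CharP.exists K
  have h1 : q ∣ p := (CharP.cast_eq_zero_iff K q p).1 h0
  rcases (Nat.dvd_prime hp).1 h1 with h | h
  · exact absurd h (CharP.char_ne_one K q)
  · rwa [← h]

theorem conds (χ : ∀ j : ℕ, (ZMod j)ˣ →* Multiplicative (ZMod p)) {n : ℕ} (l : Fin n → ℕ) (hli : Function.Injective l)
    (hu : ∀ i, lv p (l i) ≠ 0) (hG : ¬ BadT n (dat χ l)) (S : Finset ℕ) (hsub : Tame p S ⊆ univ.image l)
    (K : Type) [Field K] (hK : Nat.card K = p) :
    NoPair K p S χ ∧ ∀ r : ℕ, NoTuple K p r S χ := by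
  have hp : p.Prime := Fact.out
  have hchar : CharP K p := card_char hK
  have hfin : Finite K := Nat.finite_of_card_ne_zero (by rw [hK]; exact hp.ne_zero)
  unfold BadT at hG
  push Not at hG
  obtain ⟨g2, g3, g4⟩ := hG hu
  set φ := ZMod.castHom (dvd_refl p) K with hφ
  have hbij : Function.Bijective φ := by
    have : Fintype K := Fintype.ofFinite _
    exact ZMod.castHom_bijective _ (by rw [← Nat.card_eq_fintype_card, hK])
  set E : ZMod p ≃+* K := RingEquiv.ofBijective φ hbij with hE
  have el : (fun l j : ℕ => linking K j l (χ j)) = fun l j => φ (lk χ l j) := by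
    funext a j
    exact linking_lk χ j a
  have el' : ∀ a j, linking K j a (χ j) = φ (lk χ a j) := fun a j => congrFun (congrFun el a) j
  refine ⟨?_, ?_⟩
  · intro x y hxy h1 h2
    simp only [el'] at h1 h2
    exact pair_of hli hsub (L := fun l j => φ (lk χ l j)) (npt_map E g2) x y hxy h1 h2
  · intro r T hsq hr0 hrel
    have hdiv : ∀ a ∈ Tame p S, p ∣ a - 1 := fun a ha => (mem_filter.1 ha).2
    rcases Nat.lt_or_ge r 2 with hr | hr
    · interval_cases r
      · refine tuple_of hli hsub (u := fun l => φ (lv p l)) (L := fun l j => φ (lk χ l j)) (ε := 0) ?_ T hsq (fun a ha => ?_)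
        · have := ntt_map E g3
          rw [map_zero] at this
          exact this
        · have h1 := hrel a ha (by rw [pow_zero]; exact one_dvd _)
          simp only [el'] at h1
          rw [h1, pow_zero, Nat.div_one, zero_mul]
          have : ((a - 1 : ℕ) : K) = 0 := (CharP.cast_eq_zero_iff K p _).2 (hdiv a ha)
          rw [this]
      · refine tuple_of hli hsub (u := fun l => φ (lv p l)) (L := fun l j => φ (lk χ l j)) (ε := 1) ?_ T hsq (fun a ha => ?_)
        · have := ntt_map E g4
          rw [map_one] at this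
          exact this
        · have h1 := hrel a ha (by rw [pow_one]; exact hdiv a ha)
          simp only [el'] at h1
          rw [h1, pow_one, one_mul]
          congr 1
          unfold lv
          rw [map_natCast]
    · refine ⟨![1, 0], ?_, fun a ha => ?_⟩
      · intro h
        have := congrFun h 0
        simp at this
      · obtain ⟨i, -, rfl⟩ := mem_image.1 (hsub ha)
        rw [hr0 _ ha, Matrix.zero_mulVec]
        intro h
        apply hu i
        unfold lv
        rw [ZMod.natCast_eq_zero_iff]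
        obtain ⟨m, hm⟩ := (pow_dvd_pow p hr).trans h
        refine ⟨m, ?_⟩
        rw [hm, pow_two, mul_assoc, Nat.mul_div_cancel_left _ hp.pos]

theorem good_of (hp2 : p ≠ 2) (χ : ∀ j : ℕ, (ZMod j)ˣ →* Multiplicative (ZMod p)) (hχ : Kr χ) {n : ℕ} (l : Fin n → ℕ)
    (hli : Function.Injective l) (hu : ∀ i, lv p (l i) ≠ 0) (hG : ¬ BadT n (dat χ l)) : RegularTrivial p (Set.range l) := by
  have hp : p.Prime := Fact.out
  intro S hS hT A _ _ _ _ hreg hA hcard ρ hρ hur hres
  have hchar : CharP (ResidueField A) p := card_char hcard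
  have hfin : Finite (ResidueField A) := Nat.finite_of_card_ne_zero (by rw [hcard]; exact hp.ne_zero)
  have hpA : (p : A) ∈ maximalIdeal A := by
    rw [← ker_residue, RingHom.mem_ker, map_natCast]
    exact CharP.cast_eq_zero _ p
  have hsub : Tame p S ⊆ univ.image l := by
    intro a ha
    obtain ⟨i, hi⟩ := hT a (mem_filter.1 ha).1 (mem_filter.1 ha).2
    exact mem_image.2 ⟨i, mem_univ i, hi⟩
  have hdom : IsDomain A := (TH831.OE.reg_points A).1
  have hKc : ∀ (K : Type) [Field K] [Algebra (ResidueField A) K], Function.Surjective (algebraMap (ResidueField A) K) →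
      Nat.card K = p := by
    intro K _ _ hs
    rw [← hcard]
    exact (Nat.card_congr (Equiv.ofBijective _ ⟨(algebraMap (ResidueField A) K).injective, hs⟩)).symm
  obtain ⟨h1, -, h3⟩ := NoetherianCoefficients.result p hp2 S hS A hA hfin hpA ρ hρ hur hres χ
    (fun a ha => (hχ a (hS a (mem_filter.1 ha).1).1 (mem_filter.1 ha).2).1)
  refine ⟨fun h0 => ?_, fun h0 hI => ?_⟩
  · refine (h1 (Or.inl ?_) (Or.inr (Or.inr ?_))).2 inferInstance
    · rw [h0]
      exact IsNilpotent.zero
    · intro K _ _ _ hs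
      have := conds χ l hli hu hG S hsub K (hKc K (hs hreg))
      exact ⟨this.1, this.2 0⟩
  · refine h3 (fun a ha => (mul_eq_zero.1 ha).resolve_left h0) (Or.inr ?_) (hI.imp id fun h => ⟨hdom, h⟩)
    intro K _ _ _ hs
    exact conds χ l hli hu hG S hsub K (hKc K (hs hreg))

theorem lk_self (χ : ∀ j : ℕ, (ZMod j)ˣ →* Multiplicative (ZMod p)) {q : ℕ} (hq : q.Prime) : lk χ q q = 0 := by
  unfold lk
  rw [dif_neg]
  intro h
  exact hq.one_lt.ne' ((Nat.coprime_self q).1 h)

theorem dat_cons (χ : ∀ j : ℕ, (ZMod j)ˣ →* Multiplicative (ZMod p)) {n : ℕ} (l : Fin n → ℕ) {q : ℕ} (hq : q.Prime) :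
    dat χ (Fin.cons (α := fun _ => ℕ) q l) = ext (dat χ l) (vec χ (Fin.cons p l) q) (Fin.cons (lv p q) fun i => lk χ q (l i)) := by
  refine Prod.ext (funext fun i => ?_) (funext fun j => ?_)
  · refine Fin.cases ?_ (fun i' => ?_) i
    · refine Prod.ext rfl (funext fun j => ?_)
      refine Fin.cases ?_ (fun j' => ?_) j
      · exact lk_self χ hq
      · rfl
    · refine Prod.ext rfl (funext fun j => ?_)
      refine Fin.cases ?_ (fun j' => ?_) j
      · rfl
      · rfl
  · refine Fin.cases ?_ (fun j' => ?_) j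
    · rfl
    · rfl

theorem most_of (hp2 : p ≠ 2) (χ : ∀ j : ℕ, (ZMod j)ˣ →* Multiplicative (ZMod p)) (hχ : Kr χ) {η δ : ℝ} (hη : 0 < η)
    (hδ : η + 2 / p ≤ δ) (m : ℕ) : ∀ (k : ℕ) (l : Fin k → ℕ), (∀ i, (l i).Prime) → (∀ i, p ∣ l i - 1) → Function.Injective l →
      (∀ i, lv p (l i) ≠ 0) → GdB BadT η m k (dat χ l) → Most p δ (RegularTrivial p) m (Set.range l) := by
  classical
  have hp : p.Prime := Fact.out
  have hp0 : (0 : ℝ) < p := by exact_mod_cast hp.pos
  have hp1 : (1 : ℝ) ≤ p := by exact_mod_cast hp.one_lt.le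
  induction m with
  | zero =>
    intro k l hl hpl hli hu hG
    exact good_of hp2 χ hχ l hli hu (gdB_zero hG)
  | succ m ih =>
    intro k l hl hpl hli hu hG ε hε
    have hst := gdB_step hη hG
    obtain ⟨Good, hGood⟩ : ∃ G : (Fin (k + 1) → ZMod p) → (Fin (k + 1) → ZMod p) → Prop,
        G = fun w s => w ≠ 0 ∧ s 0 ≠ 0 ∧ GdB BadT η m (k + 1) (ext (dat χ l) w s) := ⟨_, rfl⟩
    have hst' : (1 - η) * ((p : ℝ) ^ (k + 1) * (p : ℝ) ^ (k + 1)) - (p : ℝ) ^ (k + 1) - (p : ℝ) ^ (k + 1) * (p : ℝ) ^ k ≤
        ((∑ w : Fin (k + 1) → ZMod p, ((univ : Finset (Fin (k + 1) → ZMod p)).filter fun s => Good w s).card : ℕ) : ℝ) := by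
      subst hGood
      convert hst
    have hd := densN (p := p) hp2 χ hχ l hl hpl hli Good
      (fun w s h => by rw [hGood] at h; exact h.1) (fun w s c hc h => by
        rw [hGood] at h ⊢
        refine ⟨fun h0 => h.1 (by
          funext j
          exact (mul_eq_zero.1 (congrFun h0 j)).resolve_left hc), h.2.1, ?_⟩
        unfold GdB
        rw [NbB_wsc badT_colsc m k hc]
        exact h.2.2) (1 - δ) (by
        have : (0 : ℝ) < 2 / p := by positivity
        linarith) (by
        rw [le_div_iff₀ (by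
          have : 0 < Fintype.card (Fin (k + 1) → ZMod p) := Fintype.card_pos
          positivity), Fintype.card_fun, ZMod.card, Fintype.card_fin]
        refine le_trans ?_ (hst'.trans (le_of_eq (by congr!)))
        push_cast
        have h1 : (0 : ℝ) < (p : ℝ) ^ (k + 1) := by positivity
        have hk1 : (1 : ℝ) ≤ (p : ℝ) ^ k := one_le_pow₀ hp1
        have h2 : (1 / (p : ℝ)) * (p : ℝ) ^ (k + 1) = (p : ℝ) ^ k := by
          rw [pow_succ, one_div, mul_comm ((p : ℝ) ^ k), inv_mul_cancel_left₀ hp0.ne']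
        have h3 : (1 - δ) * ((p : ℝ) ^ (k + 1) * (p : ℝ) ^ (k + 1)) ≤
            (1 - η - 2 / p) * ((p : ℝ) ^ (k + 1) * (p : ℝ) ^ (k + 1)) :=
          mul_le_mul_of_nonneg_right (by linarith) (by positivity)
        have h4 : (1 - η - 2 / p) * ((p : ℝ) ^ (k + 1) * (p : ℝ) ^ (k + 1)) =
            (1 - η) * ((p : ℝ) ^ (k + 1) * (p : ℝ) ^ (k + 1)) - 2 * ((p : ℝ) ^ (k + 1) * (p : ℝ) ^ k) := by
          rw [← h2]
          ring
        have h5 : (p : ℝ) ^ (k + 1) * 1 ≤ (p : ℝ) ^ (k + 1) * (p : ℝ) ^ k := mul_le_mul_of_nonneg_left hk1 h1.le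
        linarith) ε hε
    filter_upwards [hd] with x hx
    rw [Pr_eq]
    refine le_trans hx (Nat.cast_le.2 (card_le_card ?_))
    intro q hq
    obtain ⟨h1, h2, h34⟩ := (@Finset.mem_filter _ _ _ _ _).1 hq
    rw [hGood] at h34
    obtain ⟨h3, h3', h4⟩ := h34
    obtain ⟨-, hqp, hpq⟩ := mem_P1.1 h1
    simp only [Finset.mem_filter]
    refine ⟨h1, fun ⟨i, hi⟩ => h2 i hi.symm, ?_⟩
    rw [← Fin.range_cons]
    refine ih (k + 1) (Fin.cons q l) ?_ ?_ ?_ ?_ ?_
    · intro i
      refine Fin.cases ?_ (fun j => ?_) i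
      · exact hqp
      · exact hl j
    · intro i
      refine Fin.cases ?_ (fun j => ?_) i
      · exact hpq
      · exact hpl j
    · rw [Fin.cons_injective_iff]
      exact ⟨fun ⟨i, hi⟩ => h2 i hi.symm, hli⟩
    · intro i
      refine Fin.cases ?_ (fun j => ?_) i
      · exact h3'
      · exact hu j
    · rw [dat_cons χ l hqp]
      exact h4

end

/-- **Two-dimensional tame representations over regular local rings, most tuples of primes.** -/
theorem result (n : ℕ) (δ : ℝ) (hδ : 0 < δ) (p : ℕ) [Fact p.Prime] (hp2 : p ≠ 2) (hp4 : 4 ≤ δ * p)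
    (hp : 2 * (n : ℝ) ^ 3 * 6 ^ n < δ ^ n * (p : ℝ) ^ 2) : Most p δ (RegularTrivial p) n ∅ := by
  have hpp : p.Prime := Fact.out
  have hp0 : (0 : ℝ) < p := by exact_mod_cast hpp.pos
  obtain ⟨χ, hχ, -⟩ := extend (p := p) (fun _ => 1) ∅ (fun j hj => absurd hj (Set.notMem_empty j))
  have hG : GdB BadT (δ / 2) n 0 (dat χ (Fin.elim0 : Fin 0 → ℕ)) := by
    refine gdT_init hp2 ?_ _
    have h6 : (δ / 2) ^ n * (p : ℝ) ^ 2 * 2 ^ n = δ ^ n * (p : ℝ) ^ 2 := by
      rw [div_pow]
      field_simp
    have h7 : 2 * (n : ℝ) ^ 3 * 3 ^ n * 2 ^ n = 2 * (n : ℝ) ^ 3 * 6 ^ n := by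
      rw [mul_assoc, ← mul_pow]
      norm_num
    have h8 : 2 * (n : ℝ) ^ 3 * 3 ^ n * 2 ^ n < (δ / 2) ^ n * (p : ℝ) ^ 2 * 2 ^ n := by
      rw [h6, h7]
      exact hp
    exact lt_of_mul_lt_mul_right h8 (by positivity)
  have := most_of hp2 χ hχ (η := δ / 2) (δ := δ) (by positivity) (by
    have : 2 / (p : ℝ) ≤ δ / 2 := by
      rw [div_le_div_iff₀ hp0 (by norm_num)]
      linarith
    linarith) n 0 (Fin.elim0 : Fin 0 → ℕ) (fun i => i.elim0) (fun i => i.elim0) (fun i => i.elim0) (fun i => i.elim0) hG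
  rwa [Set.range_eq_empty] at this

end Pool.Agent.Results.MP_924d78_nt.MostTuples
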