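import Pool.Agent.Q202.QT.Gen
import Pool.Agent.Results.MP_924d78_nt.NoetherianCoefficients

/-!
# Two-dimensional tame representations over Noetherian local rings: most triples of primes

Let `p` be an odd prime and let `a`, `b` be different primes congruent to `1` modulo `p` such that `a` is not a `p`-th power modulo
`b`. For at least the proportion `(1 - 1 / p) ^ 4` of all primes `q` congruent to `1` modulo `p` the following holds: every
continuous residually unipotent `ρ : Gal(ℚbar/ℚ) → GL_2(A)`, `A` an arbitrary Noetherian local ring with finite residue field of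
characteristic `p`, which is unramified at `p` and ramified at no prime congruent to `1` modulo `p` other than `a`, `b`, `q` has
finite image modulo the nilradical of `A`, and is trivial if `p` is not a zero divisor in `A` and the inertia groups at `a`, `b`, `q`
act unipotently. There is no condition on the powers of `p` that divide `a - 1`, `b - 1`, `q - 1`.

Proof: the criterion of the starting library (`Pool.Agent.Results.MP_924d78_nt.NoetherianCoefficients.result`), and a new theorem
(`Pool.Agent.Q202.QT.joint`): the vector `(χ_q(a), χ_q(b))` up to multiples and the vector `((q - 1) / p, χ_a(q), χ_b(q))` are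
jointly equidistributed.
-/

set_option autoImplicit false

open NumberField Matrix IsLocalRing

namespace Pool.Agent.Results.MP_924d78_nt.NoetherianMostTriples

open Finset Filter
open Pool.Agent.Results.MP_924d78_nt.NoetherianCoefficients
open Pool.Agent.Q202.RT Pool.Agent.Q202.QT
open Pool.Agent.W569.TG (lk)

/-- All two-dimensional tame representations over Noetherian local rings whose ramification at primes congruent to `1` modulo `p` is
in `T` are finite: for all finite sets `S` of primes different from `p` whose members congruent to `1` modulo `p` are in `T`, all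
Noetherian local rings `A` with finite residue field of characteristic `p`, every continuous residually unipotent
`ρ : Gal(ℚbar/ℚ) → GL_2(A)` unramified outside `S` has finite image modulo the nilradical of `A` (and finite image if `A` is
reduced), and if `p` is not a zero divisor in `A` it is trivial, provided that the inertia groups at the primes in `S` congruent to
`1` modulo `p` act unipotently or `A` is a domain such that `GL_2(A)` has no elements of order `p`. -/
def NoetherianFinite (p : ℕ) (T : Set ℕ) : Prop :=
  ∀ S : Finset ℕ, (∀ l ∈ S, l.Prime ∧ l ≠ p) → (∀ l ∈ S, p ∣ l - 1 → l ∈ T) →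
    ∀ (A : Type) [CommRing A] [IsLocalRing A] [IsNoetherianRing A] [TopologicalSpace A],
      IsAdic (maximalIdeal A) → Finite (ResidueField A) → (p : A) ∈ maximalIdeal A →
    ∀ ρ : Gal(AlgebraicClosure ℚ/ℚ) →* GL (Fin 2) A, Continuous ρ → UnramifiedOutside S ρ → ResiduallyUnipotent ρ →
      FiniteModNilradical ρ ∧
      ((∀ a : A, (p : A) * a = 0 → a = 0) →
        UnipotentInertia p S ρ ∨ (IsDomain A ∧ ∀ M : Matrix (Fin 2) (Fin 2) A, M ^ p = 1 → M = 1) → ∀ g, ρ g = 1)

open Classical in
/-- The primes `q ≤ x` with `p ∣ q - 1`. -/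
noncomputable def Pr (p x : ℕ) : Finset ℕ := (range (x + 1)).filter fun q => q.Prime ∧ p ∣ q - 1

theorem Pr_eq (p x : ℕ) [Fact p.Prime] : Pr p x = P1 p x := by
  ext l
  rw [mem_P1, Pr, mem_filter, mem_range]
  constructor
  · rintro ⟨h1, h2, h3⟩
    exact ⟨by omega, h2, h3⟩
  · rintro ⟨h1, h2, h3⟩
    exact ⟨by omega, h2, h3⟩

section
variable {p : ℕ} [Fact p.Prime]

theorem linking_lk (χ : ∀ j : ℕ, (ZMod j)ˣ →* Multiplicative (ZMod p)) (j q : ℕ) :
    linking (ZMod p) j q (χ j) = lk χ q j := by
  unfold linking lk
  split_ifs with h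
  · rw [ZMod.natCast_zmod_val]
  · rfl

theorem good_of (hp2 : p ≠ 2) (χ : ∀ j : ℕ, (ZMod j)ˣ →* Multiplicative (ZMod p)) (hχ : Kr χ)
    (a b q : ℕ) (ha : a.Prime) (hb : b.Prime) (hq : q.Prime) (hpa : p ∣ a - 1) (hpb : p ∣ b - 1)
    (hpq : p ∣ q - 1) (hab : a ≠ b) (hqa : q ≠ a) (hqb : q ≠ b) (h12 : lk χ a b ≠ 0) (h3 : GN χ a b q) :
    NoetherianFinite p {a, b, q} := by
  intro S hS hT A _ _ _ _ hA hfin hpm ρ hρ hur hres
  obtain ⟨g0, g1, g2, g3⟩ := h3
  have w0 : lk χ a q ≠ 0 := g0
  have w1 : lk χ b q ≠ 0 := g1
  have hD : lk χ a b * lk χ b q * lk χ q a - lk χ a q * lk χ b a * lk χ q b ≠ 0 := g2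
  have hG : lv p a * lk χ q b + lv p q * lk χ a b ≠ 0 := g3
  have hmem : ∀ l ∈ Tame p S, l = a ∨ l = b ∨ l = q := by
    intro l hl
    simpa using hT l (mem_filter.1 hl).1 (mem_filter.1 hl).2
  have hthree : AtMostThree p S χ := by
    refine ⟨?_, ?_, ?_⟩
    · have : Tame p S ⊆ {a, b, q} := by
        intro l hl
        rcases hmem l hl with h | h | h <;> simp [h]
      exact (card_le_card this).trans card_le_three
    · intro k hk l hl hkl
      rw [linking_lk, linking_lk]
      rcases hmem k hk with rfl | rfl | rfl <;> rcases hmem l hl with rfl | rfl | rfl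
      · exact absurd rfl hkl
      · exact Or.inr h12
      · exact Or.inr w0
      · exact Or.inl h12
      · exact absurd rfl hkl
      · exact Or.inr w1
      · exact Or.inl w0
      · exact Or.inl w1
      · exact absurd rfl hkl
    · -- for each of the three primes one of the two numbers is not zero
      have key : (lk χ b a ≠ 0 ∨ lk χ q a ≠ 0) := by
        by_contra hcon
        push Not at hcon
        apply hD
        rw [hcon.1, hcon.2]
        ring
      intro j hj k hk l hl n1 n2 n3
      rw [linking_lk, linking_lk]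
      rcases hmem j hj with rfl | rfl | rfl <;> rcases hmem k hk with rfl | rfl | rfl <;>
        rcases hmem l hl with rfl | rfl | rfl <;>
        first
        | exact absurd rfl n1
        | exact absurd rfl n2
        | exact absurd rfl n3
        | exact Or.inl w0
        | exact Or.inr w0
        | exact Or.inl h12
        | exact Or.inr h12
        | exact key
        | exact key.symm
  have hgen : Generic p S χ := by
    intro hcard
    have hTame : Tame p S = {a, b, q} := by
      refine Finset.eq_of_subset_of_card_le (fun l hl => ?_) ?_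
      · rcases hmem l hl with h | h | h <;> simp [h]
      · rw [hcard]
        exact card_le_three
    refine ⟨1, ?_, a, by rw [hTame]; simp, q, by rw [hTame]; simp, b, by rw [hTame]; simp, hqa.symm, hab, hqb, ?_⟩
    · intro l hl
      rw [pow_one]
      exact (mem_filter.1 hl).2
    · rw [linking_lk, linking_lk, pow_one]
      exact hG
  have hns : Nonsingular p S χ := by
    intro j hj k hk l hl n1 n2 n3
    rw [linking_lk, linking_lk, linking_lk, linking_lk, linking_lk, linking_lk]
    have hD' := sub_ne_zero.1 hD
    rcases hmem j hj with rfl | rfl | rfl <;> rcases hmem k hk with rfl | rfl | rfl <;>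
      rcases hmem l hl with rfl | rfl | rfl <;>
      first
      | exact absurd rfl n1
      | exact absurd rfl n2
      | exact absurd rfl n3
      | (intro h; apply hD'; linear_combination h)
      | (intro h; apply hD'; linear_combination -h)
  have hres' := NoetherianCoefficients.result p hp2 S hS A hA hfin hpm ρ hρ hur hres χ (fun l hl =>
    (hχ l (hS l (mem_filter.1 hl).1).1 (mem_filter.1 hl).2).1)
  exact ⟨hres'.1 (Or.inr (Or.inl ⟨hthree, hgen, hns⟩)) (Or.inr (Or.inl hthree)),
    fun h1 h2 => hres'.2.2 h1 (Or.inl ⟨hthree, hgen⟩) h2⟩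

end

open Classical in
/-- **Tame representations of rank two over Noetherian local rings, most triples of primes.** -/
theorem result (p : ℕ) [Fact p.Prime] (hp2 : p ≠ 2) (a b : ℕ) (ha : a.Prime) (hb : b.Prime) (hpa : p ∣ a - 1) (hpb : p ∣ b - 1)
    (hab : a ≠ b) (h : ¬ ∃ y : ZMod b, y ^ p = (a : ZMod b)) (ε : ℝ) (hε : 0 < ε) :
    ∀ᶠ x : ℕ in atTop, ((1 - 1 / (p : ℝ)) ^ 4 - ε) * ((Pr p x).card : ℝ) ≤
      (((Pr p x).filter fun q => q ≠ a ∧ q ≠ b ∧ NoetherianFinite p {a, b, q}).card : ℝ) := by
  have hp : p.Prime := Fact.out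
  obtain ⟨χ, hχ⟩ := Pool.Agent.TH146.FM.exists_chi p
  have hχ' : Kr χ := hχ
  have h12 : lk χ a b ≠ 0 := fun h' => h ((Pool.Agent.TH146.FM.lk_eq_zero_iff hb hpb ha hab (hχ b hb hpb).2).1 h')
  filter_upwards [dens_gen hp2 χ hχ' a b ha hb hpa hpb hab h12 ε hε] with x hx
  rw [Pr_eq]
  refine le_trans hx (Nat.cast_le.2 (card_le_card ?_))
  intro q hq
  rw [mem_filter] at hq ⊢
  obtain ⟨h1, h2, h3, h4⟩ := hq
  have h5 := mem_P1.1 h1
  exact ⟨h1, h2, h3, good_of hp2 χ hχ' a b q ha hb h5.2.1 hpa hpb h5.2.2 hab h2 h3 h12 h4⟩

end Pool.Agent.Results.MP_924d78_nt.NoetherianMostTriples
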