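import Pool.Agent.Q202.FM.Fin
import Pool.Agent.Q202.FM.Cor

/-!
# Tame 2-adic representations of rank two

Let `S` be a finite set of odd primes and let `ρ : Gal(ℚbar/ℚ) → GL_2(ℤ_2)` be continuous and
unramified outside `S` (so also at `2`). Assume one of the following.

* `m = 0`: the reduction of `ρ` modulo `2` is unipotent, and the inertia groups act unipotently.
* `m = 1`: `ρ` is trivial modulo `2` on the inertia groups, and the inertia groups act unipotently.
* `m ≥ 2`: `ρ` is trivial modulo `2 ^ m` on the inertia groups.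

If the graph of the pairs of quadratic nonresidues in `S` has no colouring of vertex type or of edge
type of a level `k ≥ m` (these are explicit parity conditions, see below), then `ρ` is trivial.
There is no bound for the powers of `2` which divide `l - 1`, `l ∈ S`.

In particular `ρ` is trivial if at most one prime `l ∈ S` is congruent to one modulo `8` and modulo
`2 ^ (m + 1)`, or if there are two such primes, and either they are nonresidues of each other, or
`m ≥ 2` and they are not both congruent to one modulo `2 ^ (m + 2)`. There is no condition on the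
other primes in `S`; if there are at least five primes in `S`, the maximal pro-`2` extension of
`ℚ` which is unramified outside `S` is infinite, by the theorem of Golod and Shafarevich.

The proof moves along the tree of `PGL_2(ℚ_2)`, from the vertex of level `k` (where `ρ` is trivial
modulo `2 ^ k`) through an edge to a vertex of level `k + 1`, and studies the tame relations to
second order. In the limit all traces are equal to two.
-/

set_option autoImplicit false

open NumberField IsLocalRing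

namespace Pool.Agent.Results.MP_924d78_nt.TwoAdicRankTwo

/-- `ρ` is unramified at all primes that do not lie above a prime number in `S`. -/
def UnramifiedOutside (S : Finset ℕ) (ρ : Gal(AlgebraicClosure ℚ/ℚ) →* GL (Fin 2) ℤ_[2]) : Prop :=
  ∀ P : Ideal (𝓞 (AlgebraicClosure ℚ)), P.IsMaximal →
    (∀ l ∈ S, (l : 𝓞 (AlgebraicClosure ℚ)) ∉ P) →
      ∀ τ : Gal(AlgebraicClosure ℚ/ℚ), (∀ x : 𝓞 (AlgebraicClosure ℚ), τ • x - x ∈ P) → ρ τ = 1

/-- The inertia groups at the primes which lie above a prime number in `S` act trivially modulo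
`2 ^ m`. -/
def InertiaTrivialMod (m : ℕ) (S : Finset ℕ)
    (ρ : Gal(AlgebraicClosure ℚ/ℚ) →* GL (Fin 2) ℤ_[2]) : Prop :=
  ∀ P : Ideal (𝓞 (AlgebraicClosure ℚ)), P.IsMaximal →
    (∃ l ∈ S, (l : 𝓞 (AlgebraicClosure ℚ)) ∈ P) →
    ∀ τ : Gal(AlgebraicClosure ℚ/ℚ), (∀ x : 𝓞 (AlgebraicClosure ℚ), τ • x - x ∈ P) →
      ∀ i j, (2 : ℤ_[2]) ^ m ∣ ((ρ τ : Matrix (Fin 2) (Fin 2) ℤ_[2]) - 1) i j

/-- The inertia groups at the primes which lie above a prime number in `S` act unipotently. -/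
def UnipotentInertia (S : Finset ℕ)
    (ρ : Gal(AlgebraicClosure ℚ/ℚ) →* GL (Fin 2) ℤ_[2]) : Prop :=
  ∀ P : Ideal (𝓞 (AlgebraicClosure ℚ)), P.IsMaximal →
    (∃ l ∈ S, (l : 𝓞 (AlgebraicClosure ℚ)) ∈ P) →
    ∀ τ : Gal(AlgebraicClosure ℚ/ℚ), (∀ x : 𝓞 (AlgebraicClosure ℚ), τ • x - x ∈ P) →
      IsNilpotent ((ρ τ : Matrix (Fin 2) (Fin 2) ℤ_[2]) - 1)

/-- Every `ρ g` is unipotent modulo `2`: some power of `ρ g - 1` has all entries in the maximal
ideal. -/
def ResiduallyUnipotent (ρ : Gal(AlgebraicClosure ℚ/ℚ) →* GL (Fin 2) ℤ_[2]) : Prop :=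
  ∀ g, ∃ M : ℕ, ∀ i j, (((ρ g : Matrix (Fin 2) (Fin 2) ℤ_[2]) - 1) ^ M) i j ∈ maximalIdeal ℤ_[2]

/-- `l` and `j` are different and `l` is not a square modulo `j`. -/
def Nonresidue (l j : ℕ) : Prop := j ≠ l ∧ ¬ IsSquare (l : ZMod j)

open Classical in
/-- A colouring of vertex type and of level `k`: some of the primes in `S` are coloured with the
colours `1`, `2`, `3` (`c l = 0` means that `l` is not coloured), and at least two colours are used.
Every coloured prime `l` is congruent to one modulo `8` and modulo `2 ^ (k + 1)`. If `k = 1`, the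
number of the `j` with a colour different from the one of `l`, such that `l` is a nonresidue modulo
`j`, is even. If `k ≥ 2`, for both colours `t` different from the one of `l`, the number of the `j`
with colour `t`, such that `l` is a nonresidue modulo `j`, has the parity of
`(l - 1) / 2 ^ (k + 1)`. -/
def VertexColouring (S : Finset ℕ) (k : ℕ) : Prop :=
  ∃ c : ℕ → Fin 4, (∃ i ∈ S, ∃ j ∈ S, c i ≠ 0 ∧ c j ≠ 0 ∧ c i ≠ c j) ∧
    ∀ l ∈ S, c l ≠ 0 → 2 ^ (k + 1) ∣ l - 1 ∧ 8 ∣ l - 1 ∧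
      (k = 1 → (S.filter fun j => c j ≠ 0 ∧ c j ≠ c l ∧ Nonresidue l j).card % 2 = 0) ∧
      (2 ≤ k → ∀ t, t ≠ 0 → t ≠ c l →
        (S.filter fun j => c j = t ∧ Nonresidue l j).card % 2 = (l - 1) / 2 ^ (k + 1) % 2)

open Classical in
/-- A colouring of edge type and of level `k`: some of the primes in `S` are coloured with the
colours `1` and `2` (`c l = 0` means that `l` is not coloured), both colours are used, and the
primes in `M` are marked. Every coloured prime `l` is congruent to one modulo `8` and modulo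
`2 ^ (k + 2)`, and the number of the `j` with the other colour, such that `l` is a nonresidue modulo
`j`, is even. If `k ≥ 1`, moreover, the number of the coloured `j ∈ M` such that `l` is a
nonresidue modulo `j`, plus (if `l ∈ M`) the number of the `j` with the same colour as `l` such
that `l` is a nonresidue modulo `j`, has the parity of `(l - 1) / 2 ^ (k + 2)`. -/
def EdgeColouring (S : Finset ℕ) (k : ℕ) : Prop :=
  ∃ (c : ℕ → Fin 3) (M : Finset ℕ), (∃ i ∈ S, c i = 1) ∧ (∃ j ∈ S, c j = 2) ∧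
    ∀ l ∈ S, c l ≠ 0 → 2 ^ (k + 2) ∣ l - 1 ∧ 8 ∣ l - 1 ∧
      (S.filter fun j => c j ≠ 0 ∧ c j ≠ c l ∧ Nonresidue l j).card % 2 = 0 ∧
      (1 ≤ k → ((S.filter fun j => c j ≠ 0 ∧ j ∈ M ∧ Nonresidue l j).card +
        if l ∈ M then (S.filter fun j => c j = c l ∧ Nonresidue l j).card else 0) % 2 =
          (l - 1) / 2 ^ (k + 2) % 2)

/-- The members of `S` which are congruent to one modulo `8` and modulo `2 ^ (m + 1)`. -/
def deep (m : ℕ) (S : Finset ℕ) : Finset ℕ := S.filter fun l => 8 ∣ l - 1 ∧ 2 ^ (m + 1) ∣ l - 1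

/-- There is at most one deep prime, or there are two, and either they are nonresidues of each
other, or `m ≥ 2` and they are not both congruent to one modulo `2 ^ (m + 2)`. -/
def FewDeep (m : ℕ) (S : Finset ℕ) : Prop :=
  (deep m S).card ≤ 1 ∨ (deep m S).card = 2 ∧
    ((∀ i ∈ deep m S, ∀ j ∈ deep m S, i ≠ j → Nonresidue i j) ∨
      (2 ≤ m ∧ ∃ l ∈ deep m S, ¬ 2 ^ (m + 2) ∣ l - 1))

theorem result (m : ℕ) (S : Finset ℕ) (hS : ∀ l ∈ S, l.Prime ∧ l ≠ 2)
    (hcol : (∀ k, m ≤ k → (1 ≤ k → ¬ VertexColouring S k) ∧ ¬ EdgeColouring S k) ∨ FewDeep m S)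
    (ρ : Gal(AlgebraicClosure ℚ/ℚ) →* GL (Fin 2) ℤ_[2]) (hρ : Continuous ρ)
    (hur : UnramifiedOutside S ρ) (hres : m = 0 → ResiduallyUnipotent ρ)
    (hI : InertiaTrivialMod m S ρ) (huni : m ≤ 1 → UnipotentInertia S ρ) :
    ∀ g, ρ g = 1 := by
  have hur' : ∀ g ∈ TH831.OE.UrT S, ρ g = 1 := fun g ⟨P, hP, h2, h3⟩ => hur P hP h2 g h3
  have hVE : ∀ k, m ≤ k → (1 ≤ k → ¬ Q202.FM.VertexCol S k) ∧ ¬ Q202.FM.EdgeCol S k := by
    rcases hcol with h | h
    · exact h
    · exact fun k hk => ⟨fun h1 => Q202.FM.no_vertex h hk h1, Q202.FM.no_edge h hk⟩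
  have hI' : ∀ P : Ideal (𝓞 (AlgebraicClosure ℚ)), P.IsMaximal →
      ∀ τ : Gal(AlgebraicClosure ℚ/ℚ), (∀ x : 𝓞 (AlgebraicClosure ℚ), τ • x - x ∈ P) →
      ∀ i j, (2 : ℤ_[2]) ^ m ∣ ((ρ τ : Matrix (Fin 2) (Fin 2) ℤ_[2]) - 1) i j := by
    intro P hP τ hτ i j
    by_cases hSP : ∃ l ∈ S, (l : 𝓞 (AlgebraicClosure ℚ)) ∈ P
    · exact hI P hP hSP τ hτ i j
    · rw [hur P hP (fun l hl hlP => hSP ⟨l, hl, hlP⟩) τ hτ, Units.val_one, sub_self]
      exact dvd_zero _
  have huni' : m ≤ 1 → ∀ P : Ideal (𝓞 (AlgebraicClosure ℚ)), P.IsMaximal →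
      ∀ τ : Gal(AlgebraicClosure ℚ/ℚ), (∀ x : 𝓞 (AlgebraicClosure ℚ), τ • x - x ∈ P) →
      IsNilpotent ((ρ τ : Matrix (Fin 2) (Fin 2) ℤ_[2]) - 1) := by
    intro hm P hP τ hτ
    by_cases hSP : ∃ l ∈ S, (l : 𝓞 (AlgebraicClosure ℚ)) ∈ P
    · exact huni hm P hP hSP τ hτ
    · rw [hur P hP (fun l hl hlP => hSP ⟨l, hl, hlP⟩) τ hτ, Units.val_one, sub_self]
      exact IsNilpotent.zero
  have hres' : m = 0 → ∀ g : Gal(AlgebraicClosure ℚ/ℚ),
      Q202.FM.rd ((ρ g : Matrix (Fin 2) (Fin 2) ℤ_[2]).trace) = 0 := by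
    -- the trace modulo two
    intro hm g
    obtain ⟨M, hM⟩ := hres hm g
    have h1 : (((ρ g : Matrix (Fin 2) (Fin 2) ℤ_[2]) - 1) ^ M).map Q202.FM.rd = 0 := by
      ext i j
      have h2 := hM i j
      rw [← PadicInt.ker_toZMod] at h2
      exact h2
    have h2 : IsNilpotent ((((ρ g : Matrix (Fin 2) (Fin 2) ℤ_[2]) - 1)).map Q202.FM.rd) := by
      refine ⟨M, ?_⟩
      rw [← h1, Matrix.map_pow]
    have h3 := (Matrix.isNilpotent_trace_of_isNilpotent h2).eq_zero
    rw [Matrix.trace_fin_two] at h3 ⊢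
    simp only [Matrix.map_apply, Matrix.sub_apply, Matrix.one_apply_eq, map_sub, map_one] at h3
    have h20 : (2 : ZMod 2) = 0 := by decide
    rw [map_add]
    linear_combination h3 + h20
  exact Q202.FM.criterion S hS m (fun k hk h1 => (hVE k hk).1 h1) (fun k hk => (hVE k hk).2) ρ hρ
    hur' hres' hI' huni'

end Pool.Agent.Results.MP_924d78_nt.TwoAdicRankTwo
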